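import Pool.Agent.Helper57.TX.Defs
import Pool.Agent.Helper93.UX.Defs
import Pool.Agent.Helper8.UW.T4

/-!
# TX: A13, the sharp upper bound (TX2)
-/

set_option autoImplicit false
open MeasureTheory Set Filter Topology
open Pool.Agent.Helper57.Zeta Pool.Agent.Helper57.LH Pool.Agent.Helper57.ED
open Pool.Agent.Helper54.LG (za zb qk SS MM)
open Pool.Agent.Helper93.UG (zc sp)
open Pool.Agent.Helper69.UG (XX near far)
open Pool.Agent.Helper49.SO (Sn DS kX Pr)
open Pool.Agent.Helper57.TX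

namespace Pool.Agent.Helper79.TX

/-- numbers: the exponent -/
lemma expo {e P C a L V : ℝ} (he : 0 < e) (heP : e ≤ P) (hC : 0 < C) (ha : 0 < a) (ha1 : 8 * P * C * a ≤ e)
    (hL : 1 ≤ L) (hL1 : 4 * P * C ≤ e * L) (hV : 0 ≤ V) :
    (P - e / 2) * (V ^ 2 / L) ≤ P * (((1 - C * a) * V) ^ 2 / (L + C)) := by
  have hP : 0 < P := by linarith
  have hL0 : 0 < L := by linarith
  rw [mul_div_assoc', mul_div_assoc', div_le_div_iff₀ hL0 (by linarith)]
  have h1 : 1 - e / (4 * P) ≤ (1 - C * a) ^ 2 := by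
    have h2 : C * a ≤ e / (8 * P) := by
      rw [le_div_iff₀ (by positivity)]
      linarith
    have h3 : e / (4 * P) = 2 * (e / (8 * P)) := by field_simp; ring
    rw [h3]
    nlinarith [sq_nonneg (C * a)]
  have h4 : (1 - e / (4 * P)) * (L + C) ≤ L := by
    have h5 : C ≤ e / (4 * P) * L := by
      rw [div_mul_eq_mul_div, le_div_iff₀ (by positivity)]
      linarith
    have h6 : 0 ≤ e / (4 * P) := by positivity
    nlinarith
  have h7 : e / (4 * P) ≤ 1 := by
    rw [div_le_one (by positivity)]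
    linarith
  have h8 : (P - e / 2) ≤ P * (1 - e / (4 * P)) ^ 2 := by
    have h9 : P * (1 - e / (4 * P)) ^ 2 = P - e / 2 + P * (e / (4 * P)) ^ 2 := by
      field_simp
      ring
    rw [h9]
    nlinarith [mul_nonneg hP.le (sq_nonneg (e / (4 * P)))]
  have hV2 : 0 ≤ V ^ 2 := sq_nonneg V
  calc (P - e / 2) * V ^ 2 * (L + C) ≤ P * (1 - e / (4 * P)) ^ 2 * V ^ 2 * (L + C) := by gcongr
    _ = P * (1 - e / (4 * P)) * V ^ 2 * ((1 - e / (4 * P)) * (L + C)) := by ring
    _ ≤ P * (1 - e / (4 * P)) * V ^ 2 * L := by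
        refine mul_le_mul_of_nonneg_left h4 ?_
        have : 0 ≤ 1 - e / (4 * P) := by linarith
        positivity
    _ ≤ P * (1 - C * a) ^ 2 * V ^ 2 * L := by gcongr
    _ = _ := by ring

theorem tx2_of (master : ∃ C κ M₀ T₀ : ℝ, 0 < C ∧ 0 < κ ∧ 1 ≤ M₀ ∧ ∀ T c M : ℝ, T₀ ≤ T → 1 ≤ c →
    c * Real.log (Real.log T) ≤ Real.log T → M₀ ≤ M → M ≤ Real.log T →
    ∀ (V : ℝ) (k : ℕ), 0 < V → (k : ℝ) ≤ M / 8 →
    volume {t : ℝ | T / 2 ≤ t ∧ t ≤ 3 * T ∧ V + C * M ≤ |(zc (Ico t (t + c * sp T)) : ℝ) - c|} ≤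
      ENNReal.ofReal ((C * Real.exp (-(κ * M)) +
        C * (k.factorial * (2 / Real.pi ^ 2 * (Real.log c + C) / V ^ 2) ^ k)) * T)) :
    Pool.Agent.Helper93.UX.TX2 := by
  obtain ⟨Cm, κ, M₀, T₁, hC, hκ, hM₀, hm⟩ := master
  intro ε hε
  -- the constants
  set P : ℝ := Real.pi ^ 2 / 2 with hP
  have hpi := Real.pi_gt_three
  have hpi4 : Real.pi < 3.15 := Real.pi_lt_d2
  have hP4 : 4 < P := by rw [hP]; nlinarith
  have hP5 : P < 5 := by rw [hP]; nlinarith
  set e : ℝ := min ε 1 with he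
  have he0 : 0 < e := lt_min hε one_pos
  have he1 : e ≤ 1 := min_le_right _ _
  have heε : e ≤ ε := min_le_left _ _
  set a : ℝ := min (1 / 2) (e / (8 * P * Cm)) with ha
  have ha0 : 0 < a := lt_min (by norm_num) (by positivity)
  have ha1 : a ≤ 1 / 2 := min_le_left _ _
  have ha2 : 8 * P * Cm * a ≤ e := by
    have := min_le_right (1 / 2) (e / (8 * P * Cm))
    rw [← ha, le_div_iff₀ (by positivity)] at this
    linarith
  set η : ℝ := min (a / 40) (κ * a / 5) with hη
  have hη0 : 0 < η := lt_min (by positivity) (by positivity)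
  have hη1 : η ≤ a / 40 := min_le_left _ _
  have hη2 : η ≤ κ * a / 5 := min_le_right _ _
  set δ : ℝ := e / (2 * P) with hδ
  have hδ0 : 0 < δ := by positivity
  have hδ1 : δ ≤ 1 := by
    rw [hδ, div_le_one (by positivity)]
    linarith
  have hD : 0 < Cm + Cm * (Real.exp 2 / δ) := by positivity
  refine ⟨5 * (M₀ / a) ^ 2 + 2 + |Real.log (Cm + Cm * (Real.exp 2 / δ))|, η, 1,
    max (Real.exp 1) (Real.exp (4 * P * Cm / e)), max T₁ (Real.exp (Real.exp 1)), by positivity, hη0, one_pos, ?_⟩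
  intro T hT c V hc hcT hV0 hV
  have hT1 : T₁ ≤ T := (le_max_left _ _).trans hT
  have hT2 : Real.exp (Real.exp 1) ≤ T := (le_max_right _ _).trans hT
  have hT0 : 0 < T := (Real.exp_pos _).trans_le hT2
  have hlT : Real.exp 1 ≤ Real.log T := (Real.le_log_iff_exp_le hT0).2 hT2
  have hlT0 : 0 < Real.log T := (Real.exp_pos _).trans_le hlT
  have hllT : 1 ≤ Real.log (Real.log T) := (Real.le_log_iff_exp_le hlT0).2 hlT
  have hc1 : Real.exp 1 ≤ c := (le_max_left _ _).trans hc
  have hc0 : 0 < c := (Real.exp_pos _).trans_le hc1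
  have hc2 : Real.exp (4 * P * Cm / e) ≤ c := (le_max_right _ _).trans hc
  set L : ℝ := Real.log c with hL
  have hL1 : 1 ≤ L := (Real.le_log_iff_exp_le hc0).2 hc1
  have hL2 : 4 * P * Cm ≤ e * L := by
    have := (Real.le_log_iff_exp_le hc0).2 hc2
    rw [div_le_iff₀ he0] at this
    linarith
  have hc3 : 1 ≤ c := (Real.one_le_exp zero_le_one).trans hc1
  have hcT' : c * Real.log (Real.log T) ≤ Real.log T := by
    rw [one_mul, le_div_iff₀ (by linarith)] at hcT
    exact hcT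
  have hclT : c ≤ Real.log T := by nlinarith
  have hLc : L ≤ c := by
    have := Real.log_le_sub_one_of_pos hc0
    rw [hL]
    linarith
  -- the quantity in the exponent
  set Z : ℝ := V ^ 2 / L with hZ
  have hZ0 : 0 ≤ Z := by positivity
  have hZV : Z ≤ η * V := by
    rw [hZ, div_le_iff₀ (by linarith)]
    nlinarith
  have hexp : (Real.pi ^ 2 / 2 - ε) * V ^ 2 / L ≤ (P - e) * Z := by
    rw [mul_div_assoc, ← hP, ← hZ]
    exact mul_le_mul_of_nonneg_right (by linarith) hZ0
  -- the trivial bound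
  have htriv : (P - e) * Z ≤ 5 * (M₀ / a) ^ 2 + 1 →
      volume {t : ℝ | T / 2 ≤ t ∧ t ≤ 3 * T ∧ V ≤ |(zc (Ico t (t + c * sp T)) : ℝ) - c|} ≤
      ENNReal.ofReal (Real.exp (5 * (M₀ / a) ^ 2 + 2 + |Real.log (Cm + Cm * (Real.exp 2 / δ))| -
        (Real.pi ^ 2 / 2 - ε) * V ^ 2 / L) * T) := by
    intro h
    calc volume {t : ℝ | T / 2 ≤ t ∧ t ≤ 3 * T ∧ V ≤ |(zc (Ico t (t + c * sp T)) : ℝ) - c|} ≤
        volume (Icc (T / 2) (3 * T)) := measure_mono fun t ht => ⟨ht.1, ht.2.1⟩
      _ = ENNReal.ofReal (3 * T - T / 2) := Real.volume_Icc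
      _ ≤ _ := by
          refine ENNReal.ofReal_le_ofReal ?_
          have h2 : (2.7 : ℝ) ≤ Real.exp 1 := by linarith [Real.exp_one_gt_d9]
          have h3 : Real.exp 1 ≤ Real.exp (5 * (M₀ / a) ^ 2 + 2 + |Real.log (Cm + Cm * (Real.exp 2 / δ))| -
              (Real.pi ^ 2 / 2 - ε) * V ^ 2 / L) := by
            refine Real.exp_le_exp.2 ?_
            have := abs_nonneg (Real.log (Cm + Cm * (Real.exp 2 / δ)))
            linarith
          nlinarith
  by_cases hVM : V < M₀ / a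
  · refine htriv ?_
    have h1 : V ^ 2 ≤ (M₀ / a) ^ 2 := pow_le_pow_left₀ hV0 hVM.le 2
    have h2 : Z ≤ V ^ 2 := by
      rw [hZ, div_le_iff₀ (by linarith)]
      nlinarith [sq_nonneg V]
    nlinarith
  push Not at hVM
  have hVpos : 0 < V := lt_of_lt_of_le (by positivity) hVM
  have hM : M₀ ≤ a * V := by
    rw [div_le_iff₀ ha0] at hVM
    linarith
  set V₁ : ℝ := (1 - Cm * a) * V with hV₁
  have hCa : Cm * a ≤ 1 / 2 := by
    have : 8 * (Cm * a) ≤ 1 := by nlinarith [mul_pos hC ha0]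
    linarith
  have hV₁0 : 0 < V₁ := mul_pos (by linarith) hVpos
  set x : ℝ := P * (V₁ ^ 2 / (L + Cm)) with hx
  have hxl : (P - e / 2) * Z ≤ x := expo he0 (by linarith) hC ha0 ha2 hL1 hL2 hV0
  have hxu : x ≤ P * Z := by
    rw [hx, hZ]
    refine mul_le_mul_of_nonneg_left ?_ (by linarith)
    have h1 : V₁ ≤ V := by
      rw [hV₁]
      nlinarith [mul_pos hC ha0]
    gcongr
    linarith
  by_cases hx1 : x < 1
  · refine htriv ?_
    have h1 : (P - e) * Z ≤ (P - e / 2) * Z := mul_le_mul_of_nonneg_right (by linarith) hZ0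
    nlinarith [sq_nonneg (M₀ / a)]
  push Not at hx1
  set k : ℕ := ⌊x⌋₊ with hk
  have hk1 : 1 ≤ k := (Nat.one_le_floor_iff x).2 hx1
  have hkx : (k : ℝ) ≤ x := Nat.floor_le (by linarith)
  have hkx1 : x ≤ k + 1 := (Nat.lt_floor_add_one x).le
  have hkM : (k : ℝ) ≤ a * V / 8 := by
    have h1 : x ≤ 5 * (η * V) := hxu.trans (by nlinarith)
    have h2 : η * V ≤ a / 40 * V := mul_le_mul_of_nonneg_right hη1 hV0
    linarith
  have hMT : a * V ≤ Real.log T := by
    have h1 : a * V ≤ V := by nlinarith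
    have h2 : η ≤ 1 := by linarith
    have h3 : V ≤ L := by nlinarith
    linarith
  have hmain := hm T c (a * V) hT1 hc3 hcT' hM hMT V₁ k hV₁0 hkM
  have hsum : V₁ + Cm * (a * V) = V := by rw [hV₁]; ring
  rw [hsum] at hmain
  refine hmain.trans (ENNReal.ofReal_le_ofReal (mul_le_mul_of_nonneg_right ?_ hT0.le))
  have hfac : k.factorial * (2 / Real.pi ^ 2 * (L + Cm) / V₁ ^ 2) ^ k ≤ Real.exp 2 / δ * Real.exp (-((P - e) * Z)) := by
    have h1 : 2 / Real.pi ^ 2 * (L + Cm) / V₁ ^ 2 = x⁻¹ := by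
      rw [hx, hP]
      have : L + Cm ≠ 0 := by linarith
      have h3 : V₁ ≠ 0 := hV₁0.ne'
      field_simp
    rw [h1, inv_pow, ← div_eq_mul_inv]
    have h2 := Pool.Agent.Helper8.UW.fact_div hk1 hkx hkx1
    have h3 : x ≤ Real.exp (δ * x) / δ := by
      rw [le_div_iff₀ hδ0]
      linarith [Real.add_one_le_exp (δ * x)]
    calc (k.factorial : ℝ) / x ^ k ≤ k * Real.exp (2 - x) := h2
      _ ≤ Real.exp (δ * x) / δ * Real.exp (2 - x) := by
          refine mul_le_mul_of_nonneg_right (hkx.trans h3) (Real.exp_pos _).le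
      _ = Real.exp 2 / δ * Real.exp (-((1 - δ) * x)) := by
          have h5 : Real.exp (δ * x) * Real.exp (2 - x) = Real.exp 2 * Real.exp (-((1 - δ) * x)) := by
            rw [← Real.exp_add, ← Real.exp_add]
            congr 1
            ring
          have h6 : ∀ u v w z : ℝ, u * v = w * z → u / δ * v = w / δ * z := fun u v w z h => by
            have h7 : u / δ * v = u * v / δ := by ring
            rw [h7, h]
            ring
          exact h6 _ _ _ _ h5
      _ ≤ Real.exp 2 / δ * Real.exp (-((P - e) * Z)) := by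
          refine mul_le_mul_of_nonneg_left (Real.exp_le_exp.2 (neg_le_neg ?_)) (by positivity)
          calc (P - e) * Z ≤ (1 - δ) * ((P - e / 2) * Z) := by
                have h4 : (1 - δ) * (P - e / 2) = P - e / 2 - e / 2 + δ * (e / 2) := by
                  have : δ * P = e / 2 := by
                    rw [hδ]
                    field_simp
                  linear_combination -this
                rw [← mul_assoc, h4]
                refine mul_le_mul_of_nonneg_right ?_ hZ0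
                have := mul_pos hδ0 he0
                linarith
            _ ≤ (1 - δ) * x := mul_le_mul_of_nonneg_left hxl (by linarith)
  have hfar : Real.exp (-(κ * (a * V))) ≤ Real.exp (-((P - e) * Z)) := by
    refine Real.exp_le_exp.2 (neg_le_neg ?_)
    have h1 : (P - e) * Z ≤ 5 * Z := mul_le_mul_of_nonneg_right (by linarith) hZ0
    have h2 : η * V ≤ κ * a / 5 * V := mul_le_mul_of_nonneg_right hη2 hV0
    linarith
  calc Cm * Real.exp (-(κ * (a * V))) + Cm * (k.factorial * (2 / Real.pi ^ 2 * (L + Cm) / V₁ ^ 2) ^ k) ≤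
      Cm * Real.exp (-((P - e) * Z)) + Cm * (Real.exp 2 / δ * Real.exp (-((P - e) * Z))) := by gcongr
    _ = Real.exp (Real.log (Cm + Cm * (Real.exp 2 / δ))) * Real.exp (-((P - e) * Z)) := by
        rw [Real.exp_log hD]
        ring
    _ = Real.exp (Real.log (Cm + Cm * (Real.exp 2 / δ)) - (P - e) * Z) := by
        rw [← Real.exp_add]
        congr 1
    _ ≤ _ := by
        refine Real.exp_le_exp.2 ?_
        have h1 := le_abs_self (Real.log (Cm + Cm * (Real.exp 2 / δ)))
        have h2 := sq_nonneg (M₀ / a)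
        linarith

end Pool.Agent.Helper79.TX
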